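import Mathlib
import Pool.Agent.Helper35.TwistedGGPDefs
import Pool.Agent.Helper35.TwistedGGPProofs
import Pool.Agent.Helper35.TwistedGGPExist4

/-!
# The nontempered twisted branching conjecture fails for `E/F = ℂ/ℝ`

Q1 asks whether, for a local field `F`, an irreducible representation `π` of `GL(V)` of Arthur type
with `Hom_{U(V)}[π, ω_{V,ψ,μ}] ≠ 0` has an A-parameter of the form
`T ⊕ ⊕_j (N_j ⊠ Sym^{d_j} ⊕ μ N_j^σ ⊠ Sym^{d_j - 1})`. The theorem below gives counterexamples for
`F = ℝ`, `E = ℂ` in every dimension `n ≥ 2` and for both definite skew-Hermitian spaces: the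
Gaussian spans a line of the Weil representation which is stable under the compact group `U(V)`.
-/

set_option autoImplicit false

open Pool.Agent.Helper35.TwistedGGP

namespace Pool.Agent.Results.MP_59325a_al.ArchimedeanQ1

/-- Failure of Q1 over `F = ℝ`, `E = ℂ`. Let `n ≥ 2`, let `V = ℂⁿ` be a definite skew-Hermitian
space (form `± i ∑ v_j conj(w_j)`), let `ψ` be a nontrivial additive character of `ℝ` and `μ` a
unitary character of `ℂ^×` (for instance one with `μ|ℝ^× = sgn`). Weil representations `ω` of `U(V)`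
attached to `ψ` exist, and for every one of them (that is, for every splitting, in particular for
`ω_{V,ψ,μ}`) there is a unitary character `χ₀` of `ℂ^×` such that for every unitary character `χ` of
`ℂ^×` which agrees with `χ₀` on the unit circle one has `Hom_{U(V)}[χ ∘ det, ω] ≠ 0`, whereas the
A-parameter `M_A = χ ⊠ Sym^{n-1}(ℂ²)` of `χ ∘ det` is not of the form required by Q1, and
`(M_A, μ · M_A^σ)` is not a relevant pair. -/
theorem result (n : ℕ) (hn : 2 ≤ n) (ε : ℝ) (hε : ε = 1 ∨ ε = -1)
    (ψ : AddChar ℝ Circle) (hψc : Continuous ψ) (hψ : ψ ≠ 1) (μ : UnitaryChar) :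
    (∃ ω : Representation ℂ (UV fun _ : Fin n => ε) (SchwartzFn n),
      IsWeilRepresentation (fun _ => ε) ψ ω) ∧
    ∀ ω : Representation ℂ (UV fun _ : Fin n => ε) (SchwartzFn n),
      IsWeilRepresentation (fun _ => ε) ψ ω →
      ∃ χ₀ : UnitaryChar, ∀ χ : UnitaryChar, (∀ z : ℂˣ, ‖(z : ℂ)‖ = 1 → χ z = χ₀ z) →
        HomUVNonzero (fun _ => ε) (charDet n χ) ω ∧
        (charDetParameter n χ).dim = n ∧
        ¬ (charDetParameter n χ).HasQ1Form μ ∧
        ¬ (charDetParameter n χ).IsRelevantPair ((charDetParameter n χ).twist μ) := by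
  refine ⟨?_, fun ω hω => main n hn ε hε ψ hψc hψ μ ω hω⟩
  have hε0 : ε ≠ 0 := by rcases hε with h | h <;> rw [h] <;> norm_num
  obtain ⟨b, hb⟩ := Pool.Agent.Helper35.Arch.addChar_real_eq_exp ψ hψc
  have hb0 : b ≠ 0 := by
    rintro rfl
    apply hψ
    ext t
    rw [hb t]
    simp
  exact exists_weil ε b hε0 hb0 ψ hb

end Pool.Agent.Results.MP_59325a_al.ArchimedeanQ1
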